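import Pool.Agent.Y164.NZ.StmT
import Pool.Agent.Y713.TG.Gal
import Pool.Agent.TH115.GD.Ext

/-!
# NZT-EXT: the first layer of a second layer extends to the Galois group of `K`
-/

set_option autoImplicit false
set_option linter.all false

open Polynomial IsDedekindDomain Filter Topology
open scoped Classical

namespace Pool.Agent.Y839.NZ

open Pool.Agent.Y713.SE
open Pool.Agent.Y713.SE.Dat
open Pool.Agent.TH115.GD (pl Comp Sep Preserves exists_conj preserves)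
open Pool.Agent.Y164.NZ

section tow

variable {ℓ n : ℕ} {K F Ω : Type} [Field K] [Field F] [Algebra K F] [Field Ω] [Algebra F Ω]
  [Algebra K Ω] [IsScalarTower K F Ω] (D : Dat ℓ n K)

/-- two solutions for the same automorphism differ by a class which is fixed over `F` -/
lemma rel_div [IsGalois F Ω] [IsSepClosed Ω] (hN : Preserves K F Ω) {z : (Ω ≃ₐ[F] Ω) → ClassGroup (D.base Ω).A}
    {τ : Ω ≃ₐ[K] Ω} {A A' : ClassGroup (D.base Ω).A} (h : Rel D z τ A) (h' : Rel D z τ A')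
    (σ : Ω ≃ₐ[F] Ω) : D.mC (rs K σ) (A / A') = A / A' := by
  obtain ⟨σ', hσ'⟩ := exists_conj hN τ σ
  have h1 := h σ σ' hσ'
  have h2 := h' σ σ' hσ'
  rw [h1] at h2
  have h3 := mul_left_cancel h2
  rw [_root_.map_div]
  generalize D.mC (rs K σ) A = a at *
  generalize D.mC (rs K σ) A' = b at *
  rw [div_eq_div_iff_mul_eq_mul] at h3 ⊢
  rw [h3, mul_comm]

/-- solutions for a product -/
lemma rel_mul [IsGalois F Ω] [IsSepClosed Ω] (hN : Preserves K F Ω) {z : (Ω ≃ₐ[F] Ω) → ClassGroup (D.base Ω).A}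
    {τ ρ : Ω ≃ₐ[K] Ω} {A B : ClassGroup (D.base Ω).A} (h : Rel D z τ A) (h' : Rel D z ρ B) :
    Rel D z (τ * ρ) (A * D.mC (au τ) B) := by
  intro σ σ'' hσ''
  obtain ⟨σ', hσ'⟩ := exists_conj hN τ σ
  have h0 : ∀ x, ρ (σ'' x) = σ' (ρ x) := by
    intro x
    apply τ.injective
    rw [hσ' (ρ x)]
    exact hσ'' x
  have h1 := h σ σ' hσ'
  have h2 := congrArg (D.mC (au τ)) (h' σ' σ'' h0)
  have e1 : D.mC (au τ) (D.mC (rs K σ') B) = D.mC (rs K σ) (D.mC (au τ) B) := by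
    rw [mC_mC, mC_mC]
    have : (au τ).comp (rs K σ') = (rs K σ).comp (au τ) := AlgHom.ext fun x => hσ' x
    rw [this]
  rw [mC_mul_au, h2, map_mul, _root_.map_div, h1, e1, map_mul]
  generalize D.mC (rs K σ) (D.mC (au τ) B) = a
  generalize D.mC (rs K σ) A = b
  generalize D.mC (au τ) B = c
  generalize z σ = d
  rw [mul_assoc, div_mul_div_comm]

/-- the restriction to the Galois group of `F` -/
lemma rel_res {z : (Ω ≃ₐ[F] Ω) → ClassGroup (D.base Ω).A} (hz : D.CocF z) {σ : Ω ≃ₐ[F] Ω}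
    {σ₁ : Ω ≃ₐ[K] Ω} (h : ∀ x, σ₁ x = σ x) : Rel D z σ₁ (z σ) := by
  intro s s' hs
  have e1 : σ * s' = s * σ := by
    ext x
    have := hs x
    rw [h, h] at this
    exact this
  have e2 : au σ₁ = rs K σ := AlgHom.ext fun x => h x
  have h1 := hz.2 σ s'
  have h2 := hz.2 s σ
  rw [e1, h2] at h1
  rw [e2]
  generalize D.mC (rs K σ) (z s') = a at *
  generalize D.mC (rs K s) (z σ) = b at *
  rw [← mul_div_assoc, h1, mul_div_cancel_left]

lemma coc_one {z : (Ω ≃ₐ[F] Ω) → ClassGroup (D.base Ω).A} (hz : D.CocF z) : z 1 = 1 := by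
  have h1 := hz.2 1 1
  rw [mul_one, rs_one, mC_id] at h1
  exact (mul_eq_left.1 h1.symm)

/-- automorphisms near the identity have the trivial solution -/
lemma rel_one [IsGalois F Ω] [IsGalois K Ω] {z : (Ω ≃ₐ[F] Ω) → ClassGroup (D.base Ω).A}
    (hz : D.CocF z) : ∀ᶠ τ in 𝓝 (1 : Ω ≃ₐ[K] Ω), Rel D z τ 1 := by
  -- the open set on which the cocycle is trivial
  have hU : {ρ : Ω ≃ₐ[F] Ω | z ρ = 1} ∈ 𝓝 (1 : Ω ≃ₐ[F] Ω) :=
    (hz.1.isOpen_fiber 1).mem_nhds (coc_one D hz)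
  rw [krullTopology_mem_nhds_one_iff] at hU
  obtain ⟨E, hE, hEU⟩ := hU
  let bs := Module.finBasis F E
  let B : Finset Ω := Finset.univ.image (fun i => (bs i : Ω))
  have hB1 : ∀ σ₁ σ₂ : Ω ≃ₐ[F] Ω, (∀ b ∈ B, σ₁ b = σ₂ b) → z σ₁ = z σ₂ := by
    intro σ₁ σ₂ h
    have h1 : z (σ₁⁻¹ * σ₂) = 1 := by
      apply hEU
      show σ₁⁻¹ * σ₂ ∈ E.fixingSubgroup
      rw [IntermediateField.mem_fixingSubgroup_iff]
      have h2 : (σ₁⁻¹ * σ₂).toLinearMap.comp E.val.toLinearMap = E.val.toLinearMap := by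
        refine bs.ext fun i => ?_
        show (σ₁⁻¹ * σ₂) (bs i : Ω) = (bs i : Ω)
        rw [AlgEquiv.mul_apply, ← h (bs i : Ω) (Finset.mem_image_of_mem _ (Finset.mem_univ i))]
        exact σ₁.symm_apply_apply _
      intro x hx
      exact congrArg (fun f : E →ₗ[F] Ω => f ⟨x, hx⟩) h2
    have h4 := hz.2 σ₁ (σ₁⁻¹ * σ₂)
    rw [mul_inv_cancel_left, h1, map_one, mul_one] at h4
    exact h4.symm
  -- the conjugates
  set B' : Set Ω := ⋃ b ∈ B, (minpoly K b).rootSet Ω with hB'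
  have hfin : B'.Finite := B.finite_toSet.biUnion fun b _ => Polynomial.rootSet_finite _ _
  have hmem : ∀ b ∈ B, ∀ σ : Ω ≃ₐ[K] Ω, σ b ∈ B' := by
    intro b hb σ
    refine Set.mem_biUnion hb ?_
    rw [Polynomial.mem_rootSet]
    refine ⟨minpoly.ne_zero (Algebra.IsIntegral.isIntegral b), ?_⟩
    show aeval (σ b) (minpoly K b) = 0
    rw [Polynomial.aeval_algEquiv, AlgHom.comp_apply, minpoly.aeval, map_zero]
  have ev1 : ∀ᶠ τ in 𝓝 (1 : Ω ≃ₐ[K] Ω), ∀ b ∈ B', τ b = b := by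
    refine (eventually_all_finite hfin).2 fun b _ => ?_
    exact (locConst_apply (K := K) b).eventually_eq 1
  have ev2 : ∀ᶠ τ in 𝓝 (1 : Ω ≃ₐ[K] Ω), ∀ c ∈ Set.range z, D.mC (au τ) c = c := by
    refine (eventually_all_finite hz.1.range_finite).2 fun c _ => ?_
    refine ((D.mC_locConst (L := Ω) c).eventually_eq 1).mono fun τ h => ?_
    rw [h]
    exact D.mC_id c
  filter_upwards [ev1, ev2] with τ h1 h2 σ σ' hσ'
  have h3 : z σ' = z σ := by
    apply hB1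
    intro b hb
    have hb1 : τ b = b := by
      apply h1
      exact hmem b hb 1
    have hb2 := hσ' b
    rw [hb1] at hb2
    apply τ.injective
    rw [hb2]
    exact (h1 _ (hmem b hb (σ.restrictScalars K))).symm
  rw [h3, h2 _ ⟨σ, rfl⟩, map_one, div_one, mul_one]

end tow

/-- NZT-EXT -/
theorem t (hFIX : S_FIX) : S_EXT := by
  intro ℓ n k k' K F Ω _ _ _ _ _ _ _ _ _ _ _ _ _ _ _ _ _ _ _ _ hKF D P u b hG z hs
  have hN : Preserves K F Ω := preserves hKF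
  have uq : ∀ (τ : Ω ≃ₐ[K] Ω) (A A' : ClassGroup (D.base Ω).A), Rel D z τ A → Rel D z τ A' →
      (D.base Ω).phi ((D.base Ω).phi A) = 1 → (D.base Ω).phi ((D.base Ω).phi A') = 1 →
      (D.base Ω).phi A = (D.base Ω).phi A' := by
    intro τ A A' h h' h2 h2'
    have h3 := hFIX ℓ n k k' K F Ω hKF D P u b hG (A / A') (rel_div D hN h h')
      (by rw [_root_.map_div, _root_.map_div, h2, h2', div_one])
    rw [_root_.map_div] at h3
    exact div_eq_one.1 h3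
  haveI : CharZero K := charZero_of_injective_ringHom (IsFractionRing.injective k[X] K)
  haveI : CharZero Ω := charZero_of_injective_ringHom (algebraMap K Ω).injective
  haveI : ExpChar Ω 1 := ExpChar.zero
  choose A hA1 hA2 using hs.inv
  have hχ : ∀ τ : Ω ≃ₐ[K] Ω, ∃ m : Fin n → ℕ, (D.base Ω).phi (A τ) = cl ((D.base Ω).PT m) := by
    intro τ
    have h1 : (D.base Ω).sC ((D.base Ω).phi (A τ)) = (D.base Ω).phi (A τ) := by
      have h2 := hA2 τ
      rw [phi_apply (D.base Ω) ((D.base Ω).phi (A τ))] at h2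
      exact (div_eq_one.1 h2).symm
    obtain ⟨m, hm⟩ := (D.base Ω).phi_ker (p := 1) h1
    exact ⟨m, by rw [hm, cl_PT]⟩
  choose χ hχ using hχ
  have val : ∀ τ B, Rel D z τ B → (D.base Ω).phi ((D.base Ω).phi B) = 1 →
      (D.base Ω).phi B = cl ((D.base Ω).PT (χ τ)) := fun τ B h1 h2 => by
    rw [← hχ τ]
    exact uq τ B (A τ) h1 (hA1 τ) h2 (hA2 τ)
  have mul : ∀ τ ρ : Ω ≃ₐ[K] Ω, cl ((D.base Ω).PT (χ (τ * ρ))) =
      cl ((D.base Ω).PT (χ τ)) * D.mC (au τ) (cl ((D.base Ω).PT (χ ρ))) := by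
    intro τ ρ
    have h1 := val (τ * ρ) _ (rel_mul D hN (hA1 τ) (hA1 ρ)) (by
      rw [map_mul, map_mul, hA2 τ, ← mC_phi, ← mC_phi, hA2 ρ, map_one, mul_one])
    rw [← h1, map_mul, ← mC_phi, hχ, hχ]
  refine ⟨χ, ⟨?_, mul⟩, fun τ => ⟨A τ, hA1 τ, hA2 τ⟩, val, fun σ σ₁ h =>
    val σ₁ (z σ) (rel_res D hs.coc h) (hs.two σ)⟩
  have ev := rel_one D hs.coc
  have ev' : ∀ᶠ τ in 𝓝 (1 : Ω ≃ₐ[K] Ω), cl ((D.base Ω).PT (χ τ)) = 1 :=
    ev.mono fun τ h => by
      rw [← val τ 1 h (by rw [map_one, map_one]), map_one]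
  rw [IsLocallyConstant.iff_eventually_eq]
  intro τ₀
  have hc : Tendsto (fun τ : Ω ≃ₐ[K] Ω => τ₀⁻¹ * τ) (𝓝 τ₀) (𝓝 1) := by
    have := (continuous_const_mul (τ₀⁻¹ : Ω ≃ₐ[K] Ω)).tendsto τ₀
    rwa [inv_mul_cancel] at this
  filter_upwards [hc.eventually ev'] with τ hτ
  have h1 := mul τ₀ (τ₀⁻¹ * τ)
  rw [mul_inv_cancel_left, hτ, map_one, mul_one] at h1
  exact h1

end Pool.Agent.Y839.NZ
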